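import Mathlib
import Pool.Agent.Lib.MP_663568_t3.TFinal
import Pool.Agent.Lib.MP_663568_t3.TRaw

/-!
# Q1 of MP_663568_nt near compact sets of ergodic elements with small images under the characters

`G` is a nilpotent topological group, `Γ` a closed subgroup, and every term `G_s` of the lower
central series has coordinates: `π s` is a continuous homomorphism from `G_s` to `ℝ ^ (d s)` with
kernel `G_(s+1)`, integral on `Γ ∩ G_s`, and `e s j` are one-parameter subgroups of `G_s` with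
`e s j 1 ∈ Γ` which `π s` maps to the coordinate axes (by Malcev every `G, Γ` of Q1 is of this form).
`m` is an invariant probability measure on `G ⧸ Γ` and `f` a continuous function of mean zero.
For every `ε > 0` there are finitely many nontrivial characters and `v > 0` such that the estimate of
Q1 holds, with the supremum over all `g ∈ U [G, G]`, `U` a neighbourhood of `C`, and all base points,
for every compact set `C` of ergodic elements whose images under these characters have measure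
less than `v`.
-/

set_option autoImplicit false
open Finset

namespace Pool.Agent.Results.MP_663568_nt.ErgodicNullSets

open Pool.Agent.Lib.MP_663568_nt Pool.Agent.Lib.MP_663568_nt.Katai
  Pool.Agent.Lib.MP_663568_nt.Tw Pool.Agent.Lib.MP_663568_nt.Fib Pool.Agent.Lib.MP_663568_nt.T3

theorem result (G : Type) [Group G] [TopologicalSpace G] [IsTopologicalGroup G]
    (Γ : Subgroup G) (hΓ : IsClosed (Γ : Set G)) (t : ℕ)
    (hnil : (⊤ : Subgroup G).lowerCentralSeries t = ⊥)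
    (d : ℕ → ℕ) (π : (s : ℕ) → G → Fin (d s) → ℝ) (e : (s : ℕ) → Fin (d s) → ℝ → G)
    (hπmul : ∀ s, ∀ x ∈ (⊤ : Subgroup G).lowerCentralSeries s,
      ∀ y ∈ (⊤ : Subgroup G).lowerCentralSeries s, π s (x * y) = π s x + π s y)
    (hπcont : ∀ s, ContinuousOn (π s) ((⊤ : Subgroup G).lowerCentralSeries s))
    (hπint : ∀ s, ∀ γ ∈ Γ, γ ∈ (⊤ : Subgroup G).lowerCentralSeries s →
      ∀ j, ∃ z : ℤ, π s γ j = z)
    (hπker : ∀ s, ∀ x ∈ (⊤ : Subgroup G).lowerCentralSeries s,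
      π s x = 0 ↔ x ∈ (⊤ : Subgroup G).lowerCentralSeries (s + 1))
    (hecont : ∀ s j, Continuous (e s j)) (headd : ∀ s j a b, e s j (a + b) = e s j a * e s j b)
    (heΓ : ∀ s j, e s j 1 ∈ Γ) (hemem : ∀ s j r, e s j r ∈ (⊤ : Subgroup G).lowerCentralSeries s)
    (heπ : ∀ s j r, π s (e s j r) = Pi.single j r)
    [MeasurableSpace (G ⧸ Γ)] [BorelSpace (G ⧸ Γ)] (m : MeasureTheory.Measure (G ⧸ Γ))
    [MeasureTheory.IsProbabilityMeasure m] (hm : ∀ g : G, m.map (fun x => g • x) = m)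
    (f : G ⧸ Γ → ℂ) (hf : Continuous f) (hf0 : ∫ x, f x ∂m = 0)
    (ε : ℝ) (hε : 0 < ε) :
    ∃ S : Finset (G →* Circle), (∀ χ ∈ S, Continuous χ ∧ (∀ γ ∈ Γ, χ γ = 1) ∧ χ ≠ 1) ∧
      ∃ v : ℝ, 0 < v ∧ ∀ C : Set G, IsCompact C →
        (∀ a ∈ C, ∀ χ : G →* Circle, Continuous χ → (∀ γ ∈ Γ, χ γ = 1) → χ a = 1 → χ = 1) →
        (∀ χ ∈ S, MeasureTheory.volume {r : ℝ | r ∈ Set.Icc (0 : ℝ) 1 ∧
          Circle.exp (2 * Real.pi * r) ∈ χ '' C} < ENNReal.ofReal v) →
        ∃ U : Set G, IsOpen U ∧ C ⊆ U ∧ ∃ H₀ : ℕ, ∀ N H : ℕ, H₀ ≤ H → H ≤ N →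
          (∑ n ∈ Finset.Icc 1 N, (1 / (n : ℝ)) *
            ⨆ v : {g : G // ∃ u ∈ U, ∃ w ∈ commutator G, g = u * w} × G,
              ‖∑ h ∈ Finset.Icc 1 H, f (QuotientGroup.mk ((v.1 : G) ^ (h + n) * v.2)) *
                  ((ArithmeticFunction.moebius (n + h) : ℤ) : ℂ)‖)
          ≤ ε * (H : ℝ) * Real.log (N : ℝ) := by
  classical
  set π' : (s : ℕ) → G → Fin (d (s - 1)) → ℝ := fun s => π (s - 1) with hπ'
  set e' : (s : ℕ) → Fin (d (s - 1)) → ℝ → G := fun s => e (s - 1) with he'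
  have hsucc : ∀ s, 1 ≤ s → lcs G (s + 1) = (⊤ : Subgroup G).lowerCentralSeries (s - 1 + 1) := by
    intro s hs
    unfold lcs; congr 1; omega
  have hker : ∀ s, 1 ≤ s → ∀ x ∈ lcs G s, π' s x = 0 ↔ x ∈ lcs G (s + 1) := by
    intro s hs x hx
    rw [hsucc s hs]
    exact hπker (s - 1) x hx
  have hgen : ∀ s, 1 ≤ s → lcs G s ≤
      Subgroup.closure {x | ∃ j r, x = e' s j r} ⊔ lcs G (s + 1) := fun s hs =>
    gen_raw (π' s) (e' s) (hπmul (s - 1)) (hker s hs) (hemem (s - 1)) (heπ (s - 1))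
  have ht : lcs G (t + 1) = ⊥ := hnil
  have hcoc : Coc (lcs G) Γ := by
    refine coc_of_gen (lcs G) lcs_anti lcs_comm' lcs_one t ht Γ (esL e') ?_ ?_
    · intro s hs x hx
      rw [mem_esL] at hx
      obtain ⟨j, rfl⟩ := hx
      exact ⟨⟨hecont _ _, headd _ _⟩, heΓ _ _, hemem _ _⟩
    · intro s hs
      refine (hgen s hs).trans (sup_le_sup_right (Subgroup.closure_mono ?_) _)
      rintro x ⟨j, r, rfl⟩
      exact ⟨e' s j, (mem_esL e' s _).2 ⟨j, rfl⟩, r, rfl⟩
  have hN : NS (lcs G) Γ π' e' :=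
    { anti := lcs_anti
      comm := lcs_comm'
      A0 := lcs_zero
      A1 := lcs_one
      low := lcs_low
      coc := hcoc
      pi_mul := fun s hs x hx y hy => hπmul (s - 1) x hx y hy
      pi_cont := fun s hs => hπcont (s - 1)
      pi_int := fun s hs γ hγ hγs => hπint (s - 1) γ hγ hγs
      pi_ker := hker
      e_onep := fun s hs j => ⟨⟨hecont _ _, headd _ _⟩, heΓ _ _, hemem _ _⟩
      e_pi := fun s hs j r => heπ _ _ _ }
  obtain ⟨K, v, hv, hmain⟩ := mean_eps hN hΓ t ht m hm f hf hf0 ε hε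
  refine ⟨(kbox (fun s => Fin (d (s - 1))) K).image (chi hN), ?_, v, hv, ?_⟩
  · intro χ hχ
    rw [mem_image] at hχ
    obtain ⟨k, hk, rfl⟩ := hχ
    exact ⟨chi_cont hN k, fun γ hγ => chi_gamma hN k hγ, chi_ne_one hN (mem_kbox.1 hk).2⟩
  · intro C hC hCe hvol
    obtain ⟨U, hU, hCU, H₀, hH₀⟩ := hmain C hC hCe (by
      intro k hk
      have h1 := hvol (chi hN k) (mem_image_of_mem _ hk)
      rw [← vol_chi hN k C hC] at h1
      exact (ENNReal.lt_ofReal_iff_toReal_lt (ne_top_of_lt h1)).1 h1)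
    refine ⟨U, hU, hCU, H₀, fun N H h1 h2 => ?_⟩
    refine le_trans (le_of_eq ?_) (hH₀ N H h1 h2)
    rw [lcs_two]
    refine sum_congr rfl fun n _ => ?_
    congr 1
    unfold GG
    congr 1
    funext w
    congr 1
    refine sum_congr rfl fun h _ => ?_
    simp only [orb, muC]
    rw [add_comm h n]

end Pool.Agent.Results.MP_663568_nt.ErgodicNullSets
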