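import Mathlib
import Pool.Agent.Lib.MP_663568_tw.V13

/-!
# Twists of lower step: Q1 of MP_663568_nt for products

`G` is a nilpotent topological group with lower central series `G = G_1, G_2, …` and a subgroup
`Γ`, such that every `G_j` has coordinates (structure `Coord`; by Malcev all `G`, `Γ` of Q1 are of
this form), `f` is a continuous function on `G ⧸ Γ` which is orthogonal to all continuous functions
which are invariant under `G_(s+1)`, `s ≥ 1` (so `f` has no component of step at most `s`).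
`K`, `Λ` is another pair of the same kind, of step at most `s`, and `ψ` is any continuous function
on `K ⧸ Λ`.  `C` is any compact set of ergodic elements of `G`.  Then the estimate of Q1 holds for
the sequences `f (g ^ n x) ψ (k ^ n y) e(Q n)` with the supremum over all `g ∈ U [G, G]`, `U` a
neighbourhood of `C`, all `x ∈ G`, ALL `k, y ∈ K` and all real polynomials `Q` of degree at
most `s`.
-/

set_option autoImplicit false
open Finset

namespace Pool.Agent.Results.MP_663568_nt.LowerStepTwists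

open Pool.Agent.Lib.MP_663568_nt Pool.Agent.Lib.MP_663568_nt.Katai
  Pool.Agent.Lib.MP_663568_nt.Tw Pool.Agent.Lib.MP_663568_nt.Fib Pool.Agent.Lib.MP_663568_nt.T3
  Pool.Agent.Lib.MP_663568_nt.E

/-- `G` is nilpotent of step at most `t`, and every term `G_(s+1)` (in Lean
`(⊤ : Subgroup G).lowerCentralSeries s`) of the lower central series has coordinates: `π s` is a
continuous homomorphism from it to `ℝ ^ (d s)` with kernel the next term, integral on `Γ`, and the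
`e s j` are one-parameter subgroups of it with `e s j 1 ∈ Γ` which `π s` maps to the coordinate
axes. -/
structure Coord (G : Type) [Group G] [TopologicalSpace G] (Γ : Subgroup G) (t : ℕ) where
  d : ℕ → ℕ
  π : (s : ℕ) → G → Fin (d s) → ℝ
  e : (s : ℕ) → Fin (d s) → ℝ → G
  nil : (⊤ : Subgroup G).lowerCentralSeries t = ⊥
  π_mul : ∀ s, ∀ x ∈ (⊤ : Subgroup G).lowerCentralSeries s,
    ∀ y ∈ (⊤ : Subgroup G).lowerCentralSeries s, π s (x * y) = π s x + π s y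
  π_cont : ∀ s, ContinuousOn (π s) ((⊤ : Subgroup G).lowerCentralSeries s)
  π_int : ∀ s, ∀ γ ∈ Γ, γ ∈ (⊤ : Subgroup G).lowerCentralSeries s → ∀ j, ∃ z : ℤ, π s γ j = z
  π_ker : ∀ s, ∀ x ∈ (⊤ : Subgroup G).lowerCentralSeries s,
    π s x = 0 ↔ x ∈ (⊤ : Subgroup G).lowerCentralSeries (s + 1)
  e_cont : ∀ s j, Continuous (e s j)
  e_add : ∀ s j a b, e s j (a + b) = e s j a * e s j b
  e_one : ∀ s j, e s j 1 ∈ Γ
  e_mem : ∀ s j r, e s j r ∈ (⊤ : Subgroup G).lowerCentralSeries s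
  e_π : ∀ s j r, π s (e s j r) = Pi.single j r

theorem result (G K : Type) [Group G] [TopologicalSpace G] [IsTopologicalGroup G]
    [Group K] [TopologicalSpace K] [IsTopologicalGroup K] (Γ : Subgroup G) (Λ : Subgroup K)
    (t s : ℕ) (hs : 1 ≤ s) (DG : Coord G Γ t) (DK : Coord K Λ s)
    [MeasurableSpace (G ⧸ Γ)] [BorelSpace (G ⧸ Γ)] (m : MeasureTheory.Measure (G ⧸ Γ))
    [MeasureTheory.IsProbabilityMeasure m] (hm : ∀ g : G, m.map (fun x => g • x) = m)
    (f : G ⧸ Γ → ℂ) (hf : Continuous f)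
    (hf0 : ∀ φ : G ⧸ Γ → ℂ, Continuous φ →
      (∀ z ∈ (⊤ : Subgroup G).lowerCentralSeries s, ∀ x : G ⧸ Γ, φ (z • x) = φ x) →
      ∫ x, f x * (starRingEnd ℂ) (φ x) ∂m = 0)
    (ψ : K ⧸ Λ → ℂ) (hψ : Continuous ψ) (C : Set G) (hC : IsCompact C)
    (hCe : ∀ a ∈ C, ∀ χ : G →* Circle, Continuous χ → (∀ γ ∈ Γ, χ γ = 1) → χ a = 1 → χ = 1)
    (ε : ℝ) (hε : 0 < ε) :
    ∃ U : Set G, IsOpen U ∧ C ⊆ U ∧ ∃ H₀ : ℕ, ∀ N H : ℕ, H₀ ≤ H → H ≤ N →
      (∑ n ∈ Finset.Icc 1 N, (1 / (n : ℝ)) *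
        ⨆ v : ({g : G // ∃ u ∈ U, ∃ w ∈ commutator G, g = u * w} × G) × (K × K) ×
            {Q : Polynomial ℝ // Q.natDegree ≤ s},
          ‖∑ h ∈ Finset.Icc 1 H, f (QuotientGroup.mk ((v.1.1 : G) ^ (h + n) * v.1.2)) *
              ψ (QuotientGroup.mk (v.2.1.1 ^ (h + n) * v.2.1.2)) *
              Complex.exp (2 * Real.pi * Complex.I *
                ((v.2.2.1.eval ((h + n : ℕ) : ℝ) : ℝ) : ℂ)) *
              ((ArithmeticFunction.moebius (n + h) : ℤ) : ℂ)‖)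
      ≤ ε * (H : ℝ) * Real.log (N : ℝ) := by
  classical
  have hN := ns_raw Γ t DG.nil DG.d DG.π DG.e DG.π_mul DG.π_cont DG.π_int DG.π_ker DG.e_cont
    DG.e_add DG.e_one DG.e_mem DG.e_π
  have hN' := ns_raw Λ s DK.nil DK.d DK.π DK.e DK.π_mul DK.π_cont DK.π_int DK.π_ker DK.e_cont
    DK.e_add DK.e_one DK.e_mem DK.e_π
  have hψr : Reg Λ (fun y : K => ψ (y : K ⧸ Λ)) :=
    ⟨hψ.comp QuotientGroup.continuous_mk, fun x γ hγ => by
      simp only
      rw [QuotientGroup.mk_mul_of_mem x hγ]⟩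
  have hfr : Reg Γ (fun x : G => f (x : G ⧸ Γ)) :=
    ⟨hf.comp QuotientGroup.continuous_mk, fun x γ hγ => by
      simp only
      rw [QuotientGroup.mk_mul_of_mem x hγ]⟩
  have hK : lcs K (s + 1) = ⊥ := DK.nil
  obtain ⟨U, hU, hCU, H₀, hH⟩ := mean_nil hN t DG.nil m hm s hs f hf hf0 hN'
    (fun y : K => ψ (y : K ⧸ Λ)) hψr (by
      rw [hK]
      intro z hz x
      rw [Subgroup.mem_bot.mp hz, one_mul]) C hC hCe ε hε
  refine ⟨U, hU, hCU, H₀, fun N H h1 h2 => le_trans (sum_le_sum fun n _ => ?_) (hH N H h1 h2)⟩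
  refine mul_le_mul_of_nonneg_left ?_ (by positivity)
  refine Real.iSup_le ?_ (GG_nonneg _ _ _ _)
  rintro ⟨⟨⟨g, u, hu, w, hw, rfl⟩, x⟩, ⟨k, y⟩, ⟨Q, hQ⟩⟩
  obtain ⟨B, _, hB⟩ := reg_bdd (coc_prime hN) hfr
  have hw' : w ∈ lcs G 2 := by rw [lcs_two]; exact hw
  have h3 := le_ggT (T := NilP s (fun y : K => ψ (y : K ⧸ Λ))) (N := lcs G 2) (U := U)
    (F := fun x : G => f (x : G ⧸ Γ)) ⟨B, hB⟩ (nilP_bdd (coc_prime hN') s _ hψr) H n
    ⟨⟨⟨u * w, u, hu, w, hw', rfl⟩, x⟩, ⟨fun l => ψ ((k ^ l * y : K) : K ⧸ Λ) * ee (Q.eval (l : ℝ)),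
      k, y, fun l => Q.eval (l : ℝ), PP.eval Q s hQ, rfl⟩⟩
  refine le_trans (le_of_eq ?_) h3
  congr 1
  refine sum_congr rfl fun h _ => ?_
  simp only [orbT, muC]
  rw [add_comm h n, mul_assoc (f _) (ψ _)]
  congr 3

end Pool.Agent.Results.MP_663568_nt.LowerStepTwists
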