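import Pool.Agent.Lib.MP_663568_nt_h87.Step

/-!
# Lower bounds for the sum of Q1 of MP_663568_nt

* For every nilmanifold and every `f` which is not constant along a closed one-parameter orbit
  through `x₀Γ`: `S_f(N,H) ≥ c √H log N`.
* For every `t = r + 1` there is a Lipschitz `f`, `|f| ≤ 1`, on the `t`-step nilmanifold
  `NilG r ⧸ Gam r` with `S_f(N,H) ≥ √(min(t,H) H) log N / 40` for all `H ≥ 1`, `N ≥ e² H²`, with the
  same constants for all `t`; hence `H₀(ε) ≥ t / (1600 ε²)` in Q1 for `ε < 1/40`.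
-/

set_option autoImplicit false
open scoped Manifold
open Pool.Agent.MP663568h87 Pool.Agent.Lib.MP_663568_nt Pool.Agent.Lib.MP_663568_nt.NilG

namespace Pool.Agent.Results.MP_663568_nt.StepLowerBound

theorem result :
    (∀ (E : Type) [NormedAddCommGroup E] [NormedSpace ℝ E] [FiniteDimensional ℝ E]
      (G : Type) [Group G] [TopologicalSpace G] [ChartedSpace E G]
      [LieGroup 𝓘(ℝ, E) ((⊤ : ℕ∞) : WithTop ℕ∞) G]
      [SimplyConnectedSpace G] [Group.IsNilpotent G]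
      (Γ : Subgroup G) [DiscreteTopology Γ] [CompactSpace (G ⧸ Γ)]
      (f : G ⧸ Γ → ℂ) (x₀ : G),
      (∀ y : G, ∃ K : NNReal, ∃ U ∈ nhds (extChartAt 𝓘(ℝ, E) y y),
        LipschitzOnWith K
          (fun v : E => f (QuotientGroup.mk ((extChartAt 𝓘(ℝ, E) y).symm v) : G ⧸ Γ)) U) →
      ∀ φ : ℝ → G, Continuous φ → (∀ s t, φ (s + t) = φ s * φ t) →
        (QuotientGroup.mk (φ 1 * x₀) : G ⧸ Γ) = QuotientGroup.mk x₀ →
        (∃ s, f (QuotientGroup.mk (φ s * x₀) : G ⧸ Γ) ≠ f (QuotientGroup.mk x₀ : G ⧸ Γ)) →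
      ∃ c C : ℝ, 0 < c ∧ ∀ H N : ℕ, 1 ≤ H → C * (H : ℝ) ^ 2 ≤ N →
        c * √(H : ℝ) * Real.log N ≤ S Γ f x₀ N H) ∧
    ∀ r : ℕ,
      (LieGroup 𝓘(ℝ, ℝ × (Fin (r + 1) → ℝ)) ((⊤ : ℕ∞) : WithTop ℕ∞) (NilG r) ∧
        SimplyConnectedSpace (NilG r) ∧ Group.IsNilpotent (NilG r) ∧
        DiscreteTopology (Gam r) ∧ CompactSpace (NilG r ⧸ Gam r)) ∧
      ∃ f : NilG r ⧸ Gam r → ℂ, (∀ x, ‖f x‖ ≤ 1) ∧
        (∀ y : NilG r, ∃ K : NNReal, ∃ U ∈ nhds (extChartAt 𝓘(ℝ, ℝ × (Fin (r + 1) → ℝ)) y y),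
          LipschitzOnWith K (fun v : ℝ × (Fin (r + 1) → ℝ) =>
            f (QuotientGroup.mk ((extChartAt 𝓘(ℝ, ℝ × (Fin (r + 1) → ℝ)) y).symm v))) U) ∧
        (∀ H N : ℕ, 1 ≤ H → Real.exp 2 * (H : ℝ) ^ 2 ≤ N →
          √((min (r + 1) H : ℕ) * (H : ℝ)) * Real.log N / 40 ≤ S (Gam r) f 1 N H) ∧
        (∀ ε : ℝ, 0 < ε → ε < 1 / 40 → ∀ H₀ : ℕ,
          (∀ N H : ℕ, H₀ ≤ H → H ≤ N → S (Gam r) f 1 N H ≤ ε * (H : ℝ) * Real.log (N : ℝ)) →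
          ((r + 1 : ℕ) : ℝ) / (1600 * ε ^ 2) ≤ H₀) :=
  ⟨sqrt_lower_nil, fun r =>
    ⟨⟨inferInstance, inferInstance, inferInstance, inferInstance, inferInstance⟩,
      ff r, norm_ff_le r, fun y => lip r y, fun H N hH hN => step_lower r H N hH hN,
      fun ε h1 h2 H₀ h => step_threshold r ε h1 h2 H₀ h⟩⟩

end Pool.Agent.Results.MP_663568_nt.StepLowerBound
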